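import Pool.Agent.helper47.MSW.SpecA
import Pool.Agent.helper47.MSW.SpecC

set_option autoImplicit false

namespace Pool.Agent.MSW

open Equiv Finset Function MeasureTheory Pool.Agent.helper48.PP
open Pool.Agent.DSW (Pr Has GP wt)
open scoped ENNReal Classical

lemma TSM_shift (q : Pt) (h : Pt → ℝ≥0∞) : ∑' w : Pt, (if q ≤ w then h w else 0) = ∑' t : Pt, h (q + t) := by
  have hinj : Function.Injective (fun t : Pt => q + t) := fun a b hab => add_left_cancel hab
  have h1 := hinj.tsum_eq (f := fun w : Pt => if q ≤ w then h w else 0) (by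
    intro w hw
    rw [Function.mem_support] at hw
    have hqw : q ≤ w := by
      by_contra hn
      apply hw
      simp only [hn, if_false]
    refine ⟨w - q, ?_⟩
    show q + (w - q) = w
    exact add_tsub_cancel_of_le hqw)
  rw [← h1]
  refine tsum_congr fun t => ?_
  rw [if_pos (le_self_add)]

theorem TSM (hGEW : GEW_stmt) : TSM_stmt := by
  intro H F φ G hH
  have hA := (hGEW H hH).2.1
  set c : ℝ≥0∞ := ((H : ℝ≥0∞) + 1) ^ 2 with hc
  have hc0 : c ≠ 0 := by positivity
  have hct : c ≠ ⊤ := by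
    rw [hc]
    exact ENNReal.pow_ne_top (ENNReal.add_ne_top.2 ⟨ENNReal.natCast_ne_top _, ENNReal.one_ne_top⟩)
  have hnm : ∀ p s t : Pt, nm (p + s + t) = nm p + nm s + nm t := by
    intro p s t
    simp only [nm, Prod.fst_add, Prod.snd_add]
    ring
  have hsplit : ∀ p s t : Pt, wt H (p + s + t).1 * wt H (p + s + t).2 =
      ta H ^ (2 * nm p) * (wt H s.1 * wt H s.2) * ta H ^ (2 * nm t) := by
    intro p s t
    have h1 : wt H (p + s + t).1 * wt H (p + s + t).2 * c = ta H ^ (2 * nm p) * (wt H s.1 * wt H s.2) * ta H ^ (2 * nm t) * c := by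
      rw [hA (p + s + t), hnm]
      have h2 := hA s
      calc ta H ^ (2 * (nm p + nm s + nm t)) = ta H ^ (2 * nm p) * ta H ^ (2 * nm s) * ta H ^ (2 * nm t) := by
            rw [← pow_add, ← pow_add]; ring_nf
        _ = ta H ^ (2 * nm p) * (wt H s.1 * wt H s.2 * c) * ta H ^ (2 * nm t) := by rw [h2]
        _ = _ := by ring
    exact (ENNReal.mul_left_inj hc0 hct).1 h1
  have e1 : ∀ w : Pt, wt H w.1 * wt H w.2 * (∑' pq : Pt × Pt, if pq.1 ≤ pq.2 ∧ pq.2 ≤ w then
      F pq.1 * φ (pq.2 - pq.1) * G (w - pq.2) else 0) =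
      ∑' pq : Pt × Pt, if pq.1 ≤ pq.2 ∧ pq.2 ≤ w then wt H w.1 * wt H w.2 * (F pq.1 * φ (pq.2 - pq.1) * G (w - pq.2)) else 0 := by
    intro w
    rw [← ENNReal.tsum_mul_left]
    refine tsum_congr fun pq => ?_
    split_ifs
    · rfl
    · rw [mul_zero]
  rw [tsum_congr e1, ENNReal.tsum_comm, ENNReal.tsum_prod (f := fun p q : Pt => ∑' w : Pt, if p ≤ q ∧ q ≤ w then
    wt H w.1 * wt H w.2 * (F p * φ (q - p) * G (w - q)) else 0)]
  have e2 : ∀ p q : Pt, (∑' w : Pt, if p ≤ q ∧ q ≤ w then wt H w.1 * wt H w.2 * (F p * φ (q - p) * G (w - q)) else 0) =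
      if p ≤ q then ∑' t : Pt, wt H (q + t).1 * wt H (q + t).2 * (F p * φ (q - p) * G t) else 0 := by
    intro p q
    by_cases hpq : p ≤ q
    · rw [if_pos hpq]
      have h3 := TSM_shift q (fun w => wt H w.1 * wt H w.2 * (F p * φ (q - p) * G (w - q)))
      simp only [add_tsub_cancel_left] at h3
      rw [← h3]
      refine tsum_congr fun w => ?_
      simp only [hpq, true_and]
    · simp only [hpq, false_and, if_false, tsum_zero]
  have e3 : ∀ p : Pt, (∑' q : Pt, ∑' w : Pt, if p ≤ q ∧ q ≤ w then wt H w.1 * wt H w.2 * (F p * φ (q - p) * G (w - q)) else 0) =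
      ∑' s : Pt, ∑' t : Pt, wt H (p + s + t).1 * wt H (p + s + t).2 * (F p * φ s * G t) := by
    intro p
    rw [tsum_congr (e2 p)]
    have h3 := TSM_shift p (fun q => ∑' t : Pt, wt H (q + t).1 * wt H (q + t).2 * (F p * φ (q - p) * G t))
    simp only [add_tsub_cancel_left] at h3
    exact h3
  rw [tsum_congr e3]
  have e4 : ∀ p s : Pt, (∑' t : Pt, wt H (p + s + t).1 * wt H (p + s + t).2 * (F p * φ s * G t)) =
      (ta H ^ (2 * nm p) * F p) * ((wt H s.1 * wt H s.2 * φ s) * ∑' t : Pt, ta H ^ (2 * nm t) * G t) := by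
    intro p s
    rw [← ENNReal.tsum_mul_left, ← ENNReal.tsum_mul_left]
    refine tsum_congr fun t => ?_
    rw [hsplit]
    ring
  have e5 : ∀ p : Pt, (∑' s : Pt, ∑' t : Pt, wt H (p + s + t).1 * wt H (p + s + t).2 * (F p * φ s * G t)) =
      (ta H ^ (2 * nm p) * F p) * ((∑' s : Pt, wt H s.1 * wt H s.2 * φ s) * ∑' t : Pt, ta H ^ (2 * nm t) * G t) := by
    intro p
    rw [tsum_congr (e4 p), ENNReal.tsum_mul_left, ENNReal.tsum_mul_right]
  rw [tsum_congr e5, ENNReal.tsum_mul_right, mul_assoc]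

end Pool.Agent.MSW
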